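import Pool.Agent.Helper82.BR.St3

/-!
# Project BR8, module R2D
-/

set_option autoImplicit false

namespace Pool.Agent.Helper84.BR

open scoped ComplexConjugate
open Pool.Agent.Helper82.BR

theorem hR2D : StR2D := by
  intro S w ρ b1 b2 b3 hC hw h1 h3
  obtain ⟨hw2, hn, hR, hb1, hb2, hb3, c1, c2, c3, hS⟩ := hC
  have h4 : ρ ^ 4 = ρ ^ 2 - 1 := by
    rw [← hw] at hw2; linear_combination hw2
  have hr : ρ * conj ρ = 1 := by
    rw [Complex.mul_conj, Complex.normSq_eq_norm_sq, hn]; norm_num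
  have hρ0 : ρ ≠ 0 := by
    rintro rfl; norm_num at hn
  have h1ρ : 1 + ρ ≠ 0 := by
    intro h
    have e : ρ = -1 := by linear_combination h
    rw [e] at h4; norm_num at h4
  have hP : 1 + ρ + ρ ^ 2 ≠ 0 := by
    intro h
    have e : 2 * (1 + ρ) = 0 := by linear_combination h4 - (ρ ^ 2 - ρ - 1) * h
    rcases mul_eq_zero.mp e with h' | h'
    · norm_num at h'
    · exact h1ρ h'
  have hQ : 1 + ρ ^ 2 ≠ 0 := by
    intro h
    have e : ρ ^ 2 = -1 := by linear_combination h
    have e4 : ρ ^ 4 = 1 := by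
      have : ρ ^ 4 = (ρ ^ 2) ^ 2 := by ring
      rw [this, e]; norm_num
    rw [e4, e] at h4; norm_num at h4
  have k1 : conj b1 * (1 + ρ) = 1 := by
    have h := congrArg (fun z => conj z) h1
    simp only [map_mul, map_add, map_one] at h
    linear_combination ρ * h + (-conj b1 + 1) * hr
  have k3 : conj b3 * (1 + ρ) = conj ρ ^ 2 := by
    have h := congrArg (fun z => conj z) h3
    simp only [map_mul, map_add, map_one, map_pow] at h
    linear_combination ρ * h + (-conj b3 + conj ρ ^ 2) * hr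
  have key : ∀ z : ℂ, dist z 1 = dist z b1 → (1 + ρ) * (ρ * z + conj z) = 1 + ρ + ρ ^ 2 := by
    intro z hz
    rw [Complex.dist_eq, Complex.dist_eq] at hz
    have h : (z - 1) * conj (z - 1) = (z - b1) * conj (z - b1) := by
      rw [Complex.mul_conj, Complex.mul_conj, Complex.normSq_eq_norm_sq, Complex.normSq_eq_norm_sq, hz]
    simp only [map_sub, map_one] at h
    linear_combination -(1 + ρ) ^ 2 * h + (1 + ρ) * z * k1 + (1 + ρ) * conj z * h1 - ((1 + ρ) * b1) * k1 - h1
  have hne : (1 : ℂ) ≠ b1 := by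
    intro h
    rw [← h] at h1
    have : (1 : ℂ) = 0 := by linear_combination h1
    norm_num at this
  have m1 : (1 : ℂ) ∈ S := (hS 1).mpr (by tauto)
  have mb : b1 ∈ S := (hS b1).mpr (by tauto)
  obtain ⟨s, hs, t, ht, hst⟩ := Finset.one_lt_card.mp (hR 1 m1 b1 mb hne)
  have cls : ∀ z ∈ S.filter (fun s => dist s 1 = dist s b1), z = ρ ∨ (z = b2 ∧ (1 + ρ) * (ρ * b2 + conj b2) = 1 + ρ + ρ ^ 2) := by
    intro z hz
    obtain ⟨hz1, hz2⟩ := Finset.mem_filter.mp hz
    have E := key z hz2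
    rcases (hS z).mp hz1 with h | h | h | h | h | h | h | h
    · exfalso
      rw [h] at E
      simp only [mul_zero, map_zero, add_zero] at E
      exact hP E.symm
    · exfalso
      rw [h, map_one] at E
      exact hρ0 (by linear_combination E)
    · exact Or.inl h
    · exfalso
      rw [h, map_pow] at E
      have e : ρ ^ 2 * (1 + ρ ^ 2) = 0 := by
        linear_combination -(ρ ^ 2 * E - (1 + ρ) * (ρ * conj ρ + 1) * hr - (ρ ^ 2 + ρ + 1) * h4)
      rcases mul_eq_zero.mp e with h' | h'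
      · exact hρ0 (pow_eq_zero_iff (by norm_num) |>.mp h')
      · exact hQ h'
    · exfalso
      rw [h, map_pow] at E
      have e : (1 + ρ) * (ρ ^ 7 + 1) - ρ ^ 3 * (1 + ρ + ρ ^ 2) = 0 := by
        linear_combination ρ ^ 3 * E - (1 + ρ) * (ρ ^ 2 * conj ρ ^ 2 + ρ * conj ρ + 1) * hr
      have e1 : (1 : ℂ) = 0 := by
        linear_combination (-ρ + 2 * ρ ^ 2 - ρ ^ 3) * e + (1 + ρ - ρ ^ 4 - ρ ^ 6 + ρ ^ 7) * h4
      norm_num at e1
    · exfalso
      rw [h] at E
      exact hρ0 (by linear_combination ρ * h1 + k1 - E)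
    · exact Or.inr ⟨h, by rw [← h]; exact E⟩
    · exfalso
      rw [h] at E
      have e : ρ ^ 2 * (1 + ρ + ρ ^ 2) = 0 := by
        linear_combination -ρ ^ 2 * E + ρ ^ 3 * h3 + ρ ^ 2 * k3 + (ρ * conj ρ + 1) * hr + (ρ ^ 2 + 1) * h4
      rcases mul_eq_zero.mp e with h' | h'
      · exact hρ0 (pow_eq_zero_iff (by norm_num) |>.mp h')
      · exact hP h'
  have E2 : (1 + ρ) * (ρ * b2 + conj b2) = 1 + ρ + ρ ^ 2 := by
    rcases cls s hs with h | h
    · rcases cls t ht with h' | h'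
      · exact absurd (h.trans h'.symm) hst
      · exact h'.2
    · exact h.2
  have fin : (1 + ρ) * ρ ^ 2 * (b2 - (1 + ρ ^ 3)) = 0 := by
    linear_combination ρ ^ 3 * E2 + (1 + ρ) * c2 - ((1 + ρ) * b2 + ρ ^ 2) * h4
  rcases mul_eq_zero.mp fin with h | h
  · rcases mul_eq_zero.mp h with h' | h'
    · exact absurd h' h1ρ
    · exact absurd (pow_eq_zero_iff (by norm_num) |>.mp h') hρ0
  · linear_combination h

end Pool.Agent.Helper84.BR
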